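import Mathlib

set_option autoImplicit false

namespace Pool.Agent.Results.MP_03f9bf_an.KyFanFails

open Matrix Kronecker

variable {n : ℕ}

/-- The partial trace `Tr₁` over the first tensor factor: an entry of `ptrace₁ M` is
`(Tr₁ M) i j = ∑ k, M (k, i) (k, j)`. It is linear and satisfies
`Tr₁ (X ⊗ Y) = Tr(X) Y` (see `ptrace₁_kronecker`). -/
def ptrace₁ (M : Matrix (Fin n × Fin n) (Fin n × Fin n) ℂ) : Matrix (Fin n) (Fin n) ℂ :=
  Matrix.of fun i j => ∑ k, M (k, i) (k, j)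

/-- `S_A = A ⊗ I + I ⊗ A`. -/
def S (A : Matrix (Fin n) (Fin n) ℂ) : Matrix (Fin n × Fin n) (Fin n × Fin n) ℂ :=
  A ⊗ₖ (1 : Matrix (Fin n) (Fin n) ℂ) + (1 : Matrix (Fin n) (Fin n) ℂ) ⊗ₖ A

/-- `D_B = B ⊗ I - I ⊗ B`. -/
def D (B : Matrix (Fin n) (Fin n) ℂ) : Matrix (Fin n × Fin n) (Fin n × Fin n) ℂ :=
  B ⊗ₖ (1 : Matrix (Fin n) (Fin n) ℂ) - (1 : Matrix (Fin n) (Fin n) ℂ) ⊗ₖ B

/-- `L(A,B) = Tr₁ (S_A D_B)`. -/
def L (A B : Matrix (Fin n) (Fin n) ℂ) : Matrix (Fin n) (Fin n) ℂ := ptrace₁ (S A * D B)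

/-- `R(B) = Tr₁ (D_B)`. -/
def R (B : Matrix (Fin n) (Fin n) ℂ) : Matrix (Fin n) (Fin n) ℂ := ptrace₁ (D B)

/-- The `i`-th largest singular value of a square matrix, `i = 1, 2, …` (Mathlib's
`LinearMap.singularValues` is zero-indexed, hence the shift). -/
noncomputable def σ (i : ℕ) (M : Matrix (Fin n) (Fin n) ℂ) : ℝ :=
  (Matrix.toEuclideanLin M).singularValues (i - 1)

/-- The Ky Fan norm `‖M‖_(k) = σ₁(M) + ⋯ + σ_k(M)`. -/
noncomputable def kyFan (k : ℕ) (M : Matrix (Fin n) (Fin n) ℂ) : ℝ :=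
  ∑ i ∈ Finset.Icc 1 k, σ i M

/-! ### The partial trace -/

theorem ptrace₁_add (X Y : Matrix (Fin n × Fin n) (Fin n × Fin n) ℂ) :
    ptrace₁ (X + Y) = ptrace₁ X + ptrace₁ Y := by
  ext i j
  simp [ptrace₁, Finset.sum_add_distrib]

theorem ptrace₁_sub (X Y : Matrix (Fin n × Fin n) (Fin n × Fin n) ℂ) :
    ptrace₁ (X - Y) = ptrace₁ X - ptrace₁ Y := by
  ext i j
  simp [ptrace₁, Finset.sum_sub_distrib]

theorem ptrace₁_kronecker (X Y : Matrix (Fin n) (Fin n) ℂ) :
    ptrace₁ (X ⊗ₖ Y) = X.trace • Y := by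
  ext i j
  simp [ptrace₁, Matrix.trace, Finset.sum_mul]

theorem L_eq (A B : Matrix (Fin n) (Fin n) ℂ) :
    L A B = (A * B).trace • (1 : Matrix (Fin n) (Fin n) ℂ) - A.trace • B + B.trace • A
      - (n : ℂ) • (A * B) := by
  have h : S A * D B = (A * B) ⊗ₖ (1 : Matrix (Fin n) (Fin n) ℂ) - A ⊗ₖ B + B ⊗ₖ A
      - (1 : Matrix (Fin n) (Fin n) ℂ) ⊗ₖ (A * B) := by
    unfold S D
    rw [add_mul, mul_sub, mul_sub, ← mul_kronecker_mul, ← mul_kronecker_mul,
      ← mul_kronecker_mul, ← mul_kronecker_mul]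
    simp only [mul_one, one_mul]
    abel
  unfold L
  rw [h, ptrace₁_sub, ptrace₁_add, ptrace₁_sub, ptrace₁_kronecker, ptrace₁_kronecker,
    ptrace₁_kronecker, ptrace₁_kronecker]
  simp

theorem R_eq (B : Matrix (Fin n) (Fin n) ℂ) :
    R B = B.trace • (1 : Matrix (Fin n) (Fin n) ℂ) - (n : ℂ) • B := by
  unfold R D
  rw [ptrace₁_sub, ptrace₁_kronecker, ptrace₁_kronecker]
  simp

/-! ### Singular values -/

theorem kyFan_eq (M : Matrix (Fin n) (Fin n) ℂ) :
    kyFan n M = ∑ i : Fin n, (Matrix.toEuclideanLin M).singularValues i := by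
  unfold kyFan σ
  rw [← Finset.sum_range (fun i => (Matrix.toEuclideanLin M).singularValues i)]
  refine Finset.sum_nbij' (fun i => i - 1) (fun i => i + 1) ?_ ?_ ?_ ?_ ?_
  · intro a ha
    simp only [Finset.mem_Icc, Finset.mem_range] at ha ⊢
    omega
  · intro a ha
    simp only [Finset.mem_Icc, Finset.mem_range] at ha ⊢
    omega
  · intro a ha
    simp only [Finset.mem_Icc] at ha
    omega
  · intro a ha
    simp
  · intro a ha
    rfl

/-- The sum of the singular values of `T` is at least the real part of `tr (W T)` for every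
contraction `W`. -/
theorem re_trace_le {E : Type*} [NormedAddCommGroup E] [InnerProductSpace ℂ E]
    [FiniteDimensional ℂ E] (hn : Module.finrank ℂ E = n) (T W : E →ₗ[ℂ] E)
    (hW : ∀ x, ‖W x‖ ≤ ‖x‖) :
    (LinearMap.trace ℂ E (W ∘ₗ T)).re ≤ ∑ i : Fin n, T.singularValues i := by
  have hs := T.isSymmetric_adjoint_comp_self
  rw [LinearMap.trace_eq_sum_inner _ (hs.eigenvectorBasis hn), Complex.re_sum]
  refine Finset.sum_le_sum fun i _ => ?_
  have hb : ‖hs.eigenvectorBasis hn i‖ = 1 := (hs.eigenvectorBasis hn).norm_eq_one i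
  have h1 : (inner ℂ (hs.eigenvectorBasis hn i) ((W ∘ₗ T) (hs.eigenvectorBasis hn i))).re
      ≤ ‖T (hs.eigenvectorBasis hn i)‖ := by
    calc (inner ℂ (hs.eigenvectorBasis hn i) ((W ∘ₗ T) (hs.eigenvectorBasis hn i))).re
        ≤ ‖(inner ℂ (hs.eigenvectorBasis hn i) ((W ∘ₗ T) (hs.eigenvectorBasis hn i)) : ℂ)‖ :=
          Complex.re_le_norm _
      _ ≤ ‖hs.eigenvectorBasis hn i‖ * ‖(W ∘ₗ T) (hs.eigenvectorBasis hn i)‖ :=
          norm_inner_le_norm _ _
      _ = ‖W (T (hs.eigenvectorBasis hn i))‖ := by rw [hb, one_mul]; rfl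
      _ ≤ ‖T (hs.eigenvectorBasis hn i)‖ := hW _
  have h2 : ‖T (hs.eigenvectorBasis hn i)‖ ^ 2 = T.singularValues i ^ 2 := by
    rw [T.sq_singularValues_fin hn i]
    have h3 : ((‖T (hs.eigenvectorBasis hn i)‖ ^ 2 : ℝ) : ℂ)
        = inner ℂ (T (hs.eigenvectorBasis hn i)) (T (hs.eigenvectorBasis hn i)) := by
      rw [inner_self_eq_norm_sq_to_K]; simp
    have h4 : inner ℂ (T (hs.eigenvectorBasis hn i)) (T (hs.eigenvectorBasis hn i))
        = ((hs.eigenvalues hn i : ℝ) : ℂ) := by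
      rw [← LinearMap.adjoint_inner_right]
      have h5 := hs.apply_eigenvectorBasis hn i
      rw [LinearMap.comp_apply] at h5
      rw [h5, inner_smul_right, inner_self_eq_norm_sq_to_K, hb]
      simp
    rw [h4] at h3
    exact_mod_cast h3
  have h6 : ‖T (hs.eigenvectorBasis hn i)‖ = T.singularValues i := by
    have := T.singularValues_nonneg i
    have h7 := norm_nonneg (T (hs.eigenvectorBasis hn i))
    nlinarith [sq_nonneg (‖T (hs.eigenvectorBasis hn i)‖ - T.singularValues i),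
      sq_nonneg (‖T (hs.eigenvectorBasis hn i)‖ + T.singularValues i)]
  rw [← h6]
  exact h1

/-- The trace of the operator attached to a matrix is the trace of the matrix. -/
theorem trace_toEuclideanLin (M : Matrix (Fin n) (Fin n) ℂ) :
    LinearMap.trace ℂ _ (Matrix.toEuclideanLin M) = M.trace := by
  rw [Matrix.toEuclideanLin_eq_toLin_orthonormal]
  exact Matrix.trace_toLin_eq M _

theorem toEuclideanLin_mul (M N : Matrix (Fin n) (Fin n) ℂ) :
    Matrix.toEuclideanLin (M * N) = Matrix.toEuclideanLin M ∘ₗ Matrix.toEuclideanLin N := by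
  ext x : 1
  simp [Matrix.toLpLin_apply]

theorem toEuclideanLin_one :
    Matrix.toEuclideanLin (1 : Matrix (Fin n) (Fin n) ℂ) = LinearMap.id := by
  ext x : 1
  simp

theorem finrank_eq : Module.finrank ℂ (EuclideanSpace ℂ (Fin n)) = n := by simp

/-- Lower bound for the trace norm by duality with unitary matrices. -/
theorem re_trace_le_kyFan (M W : Matrix (Fin n) (Fin n) ℂ) (hW : Wᴴ * W = 1) :
    (W * M).trace.re ≤ kyFan n M := by
  rw [kyFan_eq, ← trace_toEuclideanLin, toEuclideanLin_mul]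
  refine re_trace_le finrank_eq _ _ fun x => ?_
  have h : ‖Matrix.toEuclideanLin W x‖ ^ 2 = ‖x‖ ^ 2 := by
    have h1 : inner ℂ (Matrix.toEuclideanLin W x) (Matrix.toEuclideanLin W x)
        = inner ℂ x x := by
      rw [← LinearMap.adjoint_inner_right, ← Matrix.toEuclideanLin_conjTranspose_eq_adjoint,
        ← LinearMap.comp_apply, ← toEuclideanLin_mul, hW, toEuclideanLin_one]
      simp
    rw [inner_self_eq_norm_sq_to_K, inner_self_eq_norm_sq_to_K] at h1
    exact_mod_cast h1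
  exact le_of_eq ((sq_eq_sq₀ (norm_nonneg _) (norm_nonneg _)).1 h)

/-- If `(Mᴴ M)² = c² Mᴴ M` with `c > 0` then the trace norm of `M` is `tr (Mᴴ M) / c`. -/
theorem kyFan_eq_of_sq (M : Matrix (Fin n) (Fin n) ℂ) (c : ℝ) (hc : 0 < c)
    (h : (Mᴴ * M) * (Mᴴ * M) = ((c ^ 2 : ℝ) : ℂ) • (Mᴴ * M)) :
    kyFan n M = (Mᴴ * M).trace.re / c := by
  set T := Matrix.toEuclideanLin M with hT
  have hs := T.isSymmetric_adjoint_comp_self
  have hTT : T.adjoint ∘ₗ T = Matrix.toEuclideanLin (Mᴴ * M) := by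
    rw [toEuclideanLin_mul, Matrix.toEuclideanLin_conjTranspose_eq_adjoint]
  have key : ∀ i : Fin n, T.singularValues i = T.singularValues i ^ 2 / c := by
    intro i
    have h1 := hs.apply_eigenvectorBasis (finrank_eq (n := n)) i
    have hb : hs.eigenvectorBasis (finrank_eq (n := n)) i ≠ 0 :=
      (hs.eigenvectorBasis (finrank_eq (n := n))).orthonormal.ne_zero i
    set v := hs.eigenvectorBasis (finrank_eq (n := n)) i with hv
    set l := hs.eigenvalues (finrank_eq (n := n)) i with hl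
    have hl' : T.singularValues i ^ 2 = l := T.sq_singularValues_fin (finrank_eq (n := n)) i
    have h2 : (T.adjoint ∘ₗ T) ((T.adjoint ∘ₗ T) v) = ((c ^ 2 : ℝ) : ℂ) • (T.adjoint ∘ₗ T) v := by
      have h3 : (T.adjoint ∘ₗ T) ∘ₗ (T.adjoint ∘ₗ T)
          = ((c ^ 2 : ℝ) : ℂ) • (T.adjoint ∘ₗ T) := by
        rw [hTT, ← toEuclideanLin_mul, h, map_smul]
      have h4 := congrArg (fun f => f v) h3
      simpa using h4
    rw [h1, map_smul, h1, smul_smul, smul_smul] at h2
    have h5 : (((l * l - c ^ 2 * l : ℝ)) : ℂ) • v = 0 := by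
      have : (((l * l - c ^ 2 * l : ℝ)) : ℂ) = (l : ℂ) * l - ((c ^ 2 : ℝ) : ℂ) * l := by
        push_cast; ring
      rw [this, sub_smul]
      exact sub_eq_zero.2 h2
    have h6 : l * l - c ^ 2 * l = 0 := by
      rcases smul_eq_zero.1 h5 with h7 | h7
      · exact_mod_cast h7
      · exact absurd h7 hb
    have h8 : 0 ≤ T.singularValues i := T.singularValues_nonneg i
    rw [← hl'] at h6
    have h9 : T.singularValues i ^ 2 * ((T.singularValues i - c) * (T.singularValues i + c)) = 0 := by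
      nlinarith [h6]
    rcases mul_eq_zero.1 h9 with h10 | h10
    · have : T.singularValues i = 0 := by simpa using h10
      simp [this]
    · rcases mul_eq_zero.1 h10 with h11 | h11
      · have : T.singularValues i = c := by linarith
        rw [this]; field_simp
      · have : T.singularValues i = 0 := by linarith
        simp [this]
  rw [kyFan_eq, ← hT, Finset.sum_congr rfl fun i _ => key i, ← Finset.sum_div]
  congr 1
  have h12 : (LinearMap.trace ℂ _ (T.adjoint ∘ₗ T)).re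
      = ∑ i, hs.eigenvalues (finrank_eq (n := n)) i := by
    rw [hs.trace_eq_sum_eigenvalues (finrank_eq (n := n))]
    simp
  have h13 : (LinearMap.trace ℂ _ (T.adjoint ∘ₗ T)).re = (Mᴴ * M).trace.re := by
    rw [hTT, trace_toEuclideanLin]
  rw [← h13, h12]
  exact Finset.sum_congr rfl fun i _ => T.sq_singularValues_fin (finrank_eq (n := n)) i

/-- If `Aᴴ A = 1` then the largest singular value of `A` is at most `1`. -/
theorem sigma_one_le (A : Matrix (Fin n) (Fin n) ℂ) (h : Aᴴ * A = 1) : σ 1 A ≤ 1 := by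
  unfold σ
  set T := Matrix.toEuclideanLin A with hT
  by_cases hn : n = 0
  · have : T.singularValues (1 - 1) = 0 := T.singularValues_of_finrank_le (by simp [hn])
    rw [this]; norm_num
  have hTT : T.adjoint ∘ₗ T = LinearMap.id := by
    rw [← toEuclideanLin_one, ← h, toEuclideanLin_mul,
      Matrix.toEuclideanLin_conjTranspose_eq_adjoint]
  have hlt : 0 < n := Nat.pos_of_ne_zero hn
  have hs := T.isSymmetric_adjoint_comp_self
  have h1 := hs.apply_eigenvectorBasis (finrank_eq (n := n)) ⟨0, hlt⟩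
  have hb : hs.eigenvectorBasis (finrank_eq (n := n)) ⟨0, hlt⟩ ≠ 0 :=
    (hs.eigenvectorBasis (finrank_eq (n := n))).orthonormal.ne_zero _
  have hl' : T.singularValues 0 ^ 2 = hs.eigenvalues (finrank_eq (n := n)) ⟨0, hlt⟩ :=
    T.sq_singularValues_fin (finrank_eq (n := n)) ⟨0, hlt⟩
  replace h1 := (congrArg (fun f => f (hs.eigenvectorBasis (finrank_eq (n := n)) ⟨0, hlt⟩))
    hTT).symm.trans h1
  simp only [LinearMap.id_apply] at h1
  have h2 : (((1 - hs.eigenvalues (finrank_eq (n := n)) ⟨0, hlt⟩ : ℝ)) : ℂ) •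
      hs.eigenvectorBasis (finrank_eq (n := n)) ⟨0, hlt⟩ = 0 := by
    push_cast
    rw [sub_smul, one_smul]
    exact sub_eq_zero.2 h1
  have h3 : 1 - hs.eigenvalues (finrank_eq (n := n)) ⟨0, hlt⟩ = 0 := by
    rcases smul_eq_zero.1 h2 with h7 | h7
    · exact_mod_cast h7
    · exact absurd h7 hb
  have h4 := T.singularValues_nonneg 0
  have h5 : T.singularValues 0 ^ 2 = 1 := by rw [hl']; linarith
  show T.singularValues 0 ≤ 1
  nlinarith

/-! ### The counterexample in dimension `n = m + 3`, `m ≥ 12` -/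

section Example

variable (m : ℕ)

/-- Matrix unit. -/
def E (i j : Fin (m + 3)) : Matrix (Fin (m + 3)) (Fin (m + 3)) ℂ := Matrix.single i j 1

theorem E_mul (i j k l : Fin (m + 3)) : E m i j * E m k l = if j = k then E m i l else 0 := by
  unfold E
  split_ifs with h
  · subst h; simp
  · simp [h]

theorem E_conj (i j : Fin (m + 3)) : (E m i j)ᴴ = E m j i := by
  unfold E
  simp

theorem E_trace (i j : Fin (m + 3)) : (E m i j).trace = if i = j then 1 else 0 := by
  unfold E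
  split_ifs with h
  · subst h; simp
  · simp [h]

theorem h01 : (0 : Fin (m + 3)) ≠ 1 := by simp

theorem h02 : (0 : Fin (m + 3)) ≠ 2 := by
  intro h
  have h' := congrArg Fin.val h
  rw [Fin.val_two] at h'
  simp at h'

theorem h12 : (1 : Fin (m + 3)) ≠ 2 := by
  intro h
  have h' := congrArg Fin.val h
  rw [Fin.val_two, Fin.val_one] at h'
  omega

/-- The swap of the first two basis vectors, and `-1` on the others. -/
def A₀ : Matrix (Fin (m + 3)) (Fin (m + 3)) ℂ := E m 0 0 + E m 0 1 + E m 1 0 + E m 1 1 - 1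

/-- `diag(1, 0, -1, 0, …, 0)`. -/
def B₀ : Matrix (Fin (m + 3)) (Fin (m + 3)) ℂ := E m 0 0 - E m 2 2

/-- A real orthogonal matrix close to the polar factor. -/
noncomputable def W₀ : Matrix (Fin (m + 3)) (Fin (m + 3)) ℂ :=
  1 - (9 / 29 : ℂ) • E m 0 0 - (9 / 29 : ℂ) • E m 1 1 - (21 / 29 : ℂ) • E m 0 1
    + (21 / 29 : ℂ) • E m 1 0 - (2 : ℂ) • E m 2 2

theorem A₀_herm : (A₀ m).IsHermitian := by
  unfold Matrix.IsHermitian A₀
  simp only [Matrix.conjTranspose_sub, Matrix.conjTranspose_add, E_conj,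
    Matrix.conjTranspose_one]
  abel

theorem B₀_herm : (B₀ m).IsHermitian := by
  unfold Matrix.IsHermitian B₀
  simp only [Matrix.conjTranspose_sub, E_conj]

theorem A₀_sq : (A₀ m)ᴴ * A₀ m = 1 := by
  rw [A₀_herm m]
  unfold A₀
  simp only [sub_mul, mul_sub, add_mul, mul_add, E_mul, one_mul, mul_one, (h01 m), (h01 m).symm,
    if_true, if_false]
  abel

theorem AB_eq : A₀ m * B₀ m = E m 1 0 + E m 2 2 := by
  unfold A₀ B₀
  simp only [sub_mul, mul_sub, add_mul, E_mul, one_mul, (h01 m).symm,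
    (h02 m), (h12 m), if_true, if_false]
  abel

theorem BB_eq : B₀ m * B₀ m = E m 0 0 + E m 2 2 := by
  unfold B₀
  simp only [sub_mul, mul_sub, E_mul, (h02 m), (h02 m).symm, if_true, if_false]
  abel

theorem W₀_unitary : (W₀ m)ᴴ * W₀ m = 1 := by
  unfold W₀
  simp only [Matrix.conjTranspose_sub, Matrix.conjTranspose_add, Matrix.conjTranspose_smul, E_conj,
    Matrix.conjTranspose_one]
  simp only [sub_mul, mul_sub, add_mul, mul_add, smul_mul_assoc, mul_smul_comm, E_mul, one_mul,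
    mul_one, (h01 m), (h01 m).symm,
    (h02 m), (h12 m), (h02 m).symm, (h12 m).symm, if_true, if_false]
  simp
  module

theorem trace_one' : (1 : Matrix (Fin (m + 3)) (Fin (m + 3)) ℂ).trace = (m : ℂ) + 3 := by
  simp

theorem trace_A : (A₀ m).trace = 2 - ((m : ℂ) + 3) := by
  unfold A₀
  simp only [Matrix.trace_sub, Matrix.trace_add, E_trace, trace_one', (h01 m), (h01 m).symm,
    if_true, if_false]
  ring

theorem trace_B : (B₀ m).trace = 0 := by
  unfold B₀
  simp only [Matrix.trace_sub, E_trace, if_true]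
  ring

theorem L_eq' : L (A₀ m) (B₀ m) = 1 + ((m : ℂ) + 1) • E m 0 0 - (2 * (m : ℂ) + 4) • E m 2 2
    - ((m : ℂ) + 3) • E m 1 0 := by
  rw [L_eq, AB_eq, trace_A, trace_B]
  simp only [Matrix.trace_add, E_trace, (h01 m).symm, if_true, if_false]
  unfold B₀
  push_cast
  module

theorem R_eq' : R (B₀ m) = - (((m : ℂ) + 3) • B₀ m) := by
  rw [R_eq, trace_B]
  push_cast
  module

theorem kyFan_R : kyFan (m + 3) (R (B₀ m)) = 2 * ((m : ℝ) + 3) := by
  have h1 : (R (B₀ m))ᴴ * R (B₀ m) = (((m : ℂ) + 3) ^ 2) • (E m 0 0 + E m 2 2) := by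
    rw [R_eq', Matrix.conjTranspose_neg, Matrix.conjTranspose_smul, B₀_herm m, neg_mul_neg,
      smul_mul_assoc, mul_smul_comm, BB_eq, smul_smul]
    congr 1
    simp
    ring
  have h2 : ((R (B₀ m))ᴴ * R (B₀ m)).trace = 2 * ((m : ℂ) + 3) ^ 2 := by
    rw [h1]
    simp only [Matrix.trace_smul, Matrix.trace_add, E_trace, if_true, smul_eq_mul]
    ring
  rw [kyFan_eq_of_sq (R (B₀ m)) ((m : ℝ) + 3) (by positivity) ?_, h2]
  · have h3 : (2 * ((m : ℂ) + 3) ^ 2) = ((2 * ((m : ℝ) + 3) ^ 2 : ℝ) : ℂ) := by push_cast; ring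
    rw [h3, Complex.ofReal_re]
    field_simp
  · rw [h1, smul_mul_assoc, mul_smul_comm]
    simp only [mul_add, add_mul, E_mul, (h02 m), (h02 m).symm, if_true, if_false]
    push_cast
    module

theorem kyFan_L : (128 / 29 : ℝ) * ((m : ℝ) + 3) - 6 ≤ kyFan (m + 3) (L (A₀ m) (B₀ m)) := by
  refine le_trans (le_of_eq ?_) (re_trace_le_kyFan _ _ (W₀_unitary m))
  have h : (W₀ m * L (A₀ m) (B₀ m)).trace = (((128 / 29 : ℝ) * ((m : ℝ) + 3) - 6 : ℝ) : ℂ) := by
    rw [L_eq']
    unfold W₀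
    simp only [sub_mul, mul_sub, add_mul, mul_add, smul_mul_assoc, mul_smul_comm, E_mul, one_mul,
      mul_one, (h01 m), (h01 m).symm,
      (h02 m), (h12 m), (h02 m).symm, (h12 m).symm, if_true, if_false,
      Matrix.trace_sub, Matrix.trace_add, Matrix.trace_smul, E_trace, trace_one', smul_zero,
      Matrix.trace_zero, smul_eq_mul]
    push_cast
    ring
  rw [h, Complex.ofReal_re]

end Example

/-- **The conjectured Ky Fan inequality is false**, in every dimension `n ≥ 15` (with `k = n`):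
there are Hermitian `A, B` with `‖L(A,B)‖_(n) > 2 σ₁(A) ‖R(B)‖_(n)`. -/
theorem result : ∀ n : ℕ, 15 ≤ n → ∃ A B : Matrix (Fin n) (Fin n) ℂ,
    A.IsHermitian ∧ B.IsHermitian ∧ 2 * σ 1 A * kyFan n (R B) < kyFan n (L A B) := by
  intro n hn
  obtain ⟨m, rfl⟩ : ∃ m, n = m + 3 := ⟨n - 3, by omega⟩
  refine ⟨A₀ m, B₀ m, A₀_herm m, B₀_herm m, ?_⟩
  have h1 := sigma_one_le (A₀ m) (A₀_sq m)
  have h2 := kyFan_L m
  rw [kyFan_R]
  have hm : (12 : ℝ) ≤ m := by exact_mod_cast (by omega : 12 ≤ m)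
  have h3 : 2 * σ 1 (A₀ m) * (2 * ((m : ℝ) + 3)) ≤ 2 * 1 * (2 * ((m : ℝ) + 3)) := by
    gcongr
  linarith


end Pool.Agent.Results.MP_03f9bf_an.KyFanFails
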